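import Mathlib

/-!
Definitions for the problem on normal forms of torus-bundle groups.
-/

namespace Pool.Agent.Lib.MP_df87fb_al

open Filter

/-- The automorphism `v ↦ M v` of `ℤ²` given by `M ∈ GL(2, ℤ)`. -/
def glEquiv (M : GL (Fin 2) ℤ) : (Fin 2 → ℤ) ≃+ (Fin 2 → ℤ) where
  toFun v := (M : Matrix (Fin 2) (Fin 2) ℤ).mulVec v
  invFun v := ((M⁻¹ : GL (Fin 2) ℤ) : Matrix (Fin 2) (Fin 2) ℤ).mulVec v
  left_inv v := by
    simp only [Matrix.mulVec_mulVec, Units.inv_mul, Matrix.one_mulVec]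
  right_inv v := by
    simp only [Matrix.mulVec_mulVec, Units.mul_inv, Matrix.one_mulVec]
  map_add' v w := Matrix.mulVec_add _ v w

/-- The action of `ℤ` on `ℤ²` in which the generator `1` acts by `M` (so `k` acts by `M ^ k`). -/
def glAct (M : GL (Fin 2) ℤ) : Multiplicative ℤ →* MulAut (Multiplicative (Fin 2 → ℤ)) :=
  zpowersHom (MulAut (Multiplicative (Fin 2 → ℤ))) (AddEquiv.toMultiplicative (glEquiv M))

/-- The torus-bundle group `G_M = ℤ² ⋊_M ℤ`. -/
abbrev TorusBundleGroup (M : GL (Fin 2) ℤ) : Type :=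
  Multiplicative (Fin 2 → ℤ) ⋊[glAct M] Multiplicative ℤ

variable {G : Type} [Group G] {m : ℕ}

/-- The evaluation map `π : S* → G`, where `S = X ∪ X⁻¹`: the letter `(i, true)` is `x i` and the
letter `(i, false)` is its formal inverse. -/
def evalWord (x : Fin m → G) (w : List (Fin m × Bool)) : G :=
  (w.map fun s => if s.2 then x s.1 else (x s.1)⁻¹).prod

/-- The word metric `d_X`: the least length of a word `w` with `g π(w) = h`. -/
noncomputable def wordDist (x : Fin m → G) (g h : G) : ℕ :=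
  sInf {n : ℕ | ∃ w : List (Fin m × Bool), w.length = n ∧ g * evalWord x w = h}

/-- A normal form: the evaluation map restricted to `L` is a bijection onto `G`. -/
def IsNormalForm (x : Fin m → G) (L : Set (List (Fin m × Bool))) : Prop :=
  Set.BijOn (evalWord x) L Set.univ

/-- The function `s_L(n)` (the set is bounded by `2 n`, so the supremum is a maximum). -/
noncomputable def fellowFun (x : Fin m → G) (L : Set (List (Fin m × Bool))) (n : ℕ) : ℕ :=
  sSup {d : ℕ | ∃ t ≤ n, ∃ w₁ ∈ L, ∃ w₂ ∈ L, ∃ i : Fin m, evalWord x w₁ * x i = evalWord x w₂ ∧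
    d = wordDist x (evalWord x (w₁.take t)) (evalWord x (w₂.take t))}

/-- `h ⪯ f`: `h n ≤ K f (M n)` for some positive integers `K`, `M` and all large `n`. -/
def Preceq (h f : ℕ → ℝ) : Prop :=
  ∃ K M : ℕ, 0 < K ∧ 0 < M ∧ ∀ᶠ n in atTop, h n ≤ K * f (M * n)

/-- `h ≪ f`: `h t ⪯ f` for some unbounded nondecreasing nonnegative `t`. -/
def MuchLess (h f : ℕ → ℝ) : Prop :=
  ∃ t : ℕ → ℝ, Monotone t ∧ (∀ n, 0 ≤ t n) ∧ ¬ BddAbove (Set.range t) ∧
    Preceq (fun n => h n * t n) f

/-- The `f(n)`-fellow traveler property: `f` is nondecreasing, nonnegative, `f ≪ 𝔦` where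
`𝔦(n) = n`, and `s_L ⪯ f`. -/
def FellowTraveler (x : Fin m → G) (L : Set (List (Fin m × Bool))) (f : ℕ → ℝ) : Prop :=
  Monotone f ∧ (∀ n, 0 ≤ f n) ∧ MuchLess f (fun n => (n : ℝ)) ∧
    Preceq (fun n => (fellowFun x L n : ℝ)) f

/-- Quasiregular: every initial segment of a word of `L` extends to a word of `L` by at most `c`
letters. -/
def Quasiregular {S : Type} (L : Set (List S)) : Prop :=
  ∃ c : ℕ, ∀ w ∈ L, ∀ u, u <+: w → ∃ v : List S, v.length ≤ c ∧ u ++ v ∈ L

/-- `L` contains every initial segment of each of its words. -/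
def PrefixClosed {S : Type} (L : Set (List S)) : Prop :=
  ∀ w ∈ L, ∀ u, u <+: w → u ∈ L

end Pool.Agent.Lib.MP_df87fb_al
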