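import Mathlib
import Pool.Agent.Lib.MP_df87fb_al.Defs

-- part Pool.Agent.Lib.MP_df87fb_al.Cube
section

/-!
A finite connected set can be listed with jumps of at most three steps, from a given vertex to a
neighbour of it (the argument of Sekanina and Karaganis), and such lists can be concatenated to an
enumeration of an infinite set.
-/

namespace Pool.Agent.Lib.MP_df87fb_al

open Relation

variable {V : Type*}

/-- three steps of `R` -/
def Near3 (R : V → V → Prop) (a b : V) : Prop := ∃ c d, R a c ∧ R c d ∧ R d b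

/-- `R` restricted to `D` -/
def Res (R : V → V → Prop) (D : Set V) (a b : V) : Prop := R a b ∧ a ∈ D ∧ b ∈ D

theorem Near3.symm {R : V → V → Prop} (hs : ∀ a b, R a b → R b a) {a b : V}
    (h : Near3 R a b) : Near3 R b a := by
  obtain ⟨c, d, h1, h2, h3⟩ := h
  exact ⟨d, c, hs _ _ h3, hs _ _ h2, hs _ _ h1⟩

theorem exists_last_step {R : V → V → Prop} {D : Set V} {u a : V}
    (h : ReflTransGen (Res R D) a u) (hne : a ≠ u) : ∃ w ∈ D, w ≠ u ∧ R w u := by
  induction h using ReflTransGen.head_induction_on with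
  | refl => exact absurd rfl hne
  | head hab _ ih =>
    rename_i a b _
    by_cases hb : b = u
    · subst hb; exact ⟨a, hab.2.1, hne, hab.1⟩
    · exact ih hb

theorem cube_list [DecidableEq V] {R : V → V → Prop} (hr : ∀ a, R a a)
    (hs : ∀ a b, R a b → R b a) :
    ∀ (n : ℕ) (D : Finset V) (u : V), D.card = n → u ∈ D →
      (∀ a ∈ D, ReflTransGen (Res R D) a u) →
      ∃ l : List V, l.Nodup ∧ (∀ a, a ∈ l ↔ a ∈ D) ∧ l.head? = some u ∧
        (∀ z ∈ l.getLast?, R z u) ∧ l.IsChain (Near3 R) := by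
  classical
  intro n
  induction n using Nat.strong_induction_on with
  | _ n ih =>
    intro D u hcard hu hconn
    by_cases hD : ∀ a ∈ D, a = u
    · refine ⟨[u], by simp, ?_, rfl, ?_, by simp⟩
      · intro a
        simp only [List.mem_singleton]
        exact ⟨fun h => h ▸ hu, hD a⟩
      · intro z hz
        simp at hz
        subst hz
        exact hr _
    · push Not at hD
      obtain ⟨a, haD, hau⟩ := hD
      obtain ⟨w, hwD, hwu, hRwu⟩ := exists_last_step (hconn a haD) hau
      set E : Set V := (D : Set V) \ {u} with hE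
      set D₂ : Finset V := D.filter (fun a => a ≠ u ∧ ReflTransGen (Res R E) a w) with hD₂
      set D₁ : Finset V := D \ D₂ with hD₁
      have hsub : D₂ ⊆ D := Finset.filter_subset _ _
      have hw₂ : w ∈ D₂ := by
        simp only [hD₂, Finset.mem_filter]
        exact ⟨hwD, hwu, ReflTransGen.refl⟩
      have hu₂ : u ∉ D₂ := by simp [hD₂]
      have hu₁ : u ∈ D₁ := by simp [hD₁, hu, hu₂]
      have hc₂ : D₂.card < n := by
        rw [← hcard]
        exact Finset.card_lt_card ⟨hsub, fun h => hu₂ (h hu)⟩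
      have hc₁ : D₁.card < n := by
        rw [← hcard]
        refine Finset.card_lt_card ⟨Finset.sdiff_subset, fun h => ?_⟩
        have := h hwD
        simp [hD₁, hw₂] at this
      have hconn₂ : ∀ a ∈ D₂, ReflTransGen (Res R D₂) a w := by
        intro a ha
        have ha' := (Finset.mem_filter.1 ha).2.2
        revert ha
        induction ha' using ReflTransGen.head_induction_on with
        | refl => intro _; exact ReflTransGen.refl
        | head hab hbw ih =>
          rename_i a b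
          intro ha
          have hb : b ∈ D₂ := by
            simp only [hD₂, Finset.mem_filter]
            exact ⟨hab.2.2.1, hab.2.2.2, hbw⟩
          exact ReflTransGen.head ⟨hab.1, ha, hb⟩ (ih hb)
      have hconn₁ : ∀ a ∈ D₁, ReflTransGen (Res R D₁) a u := by
        intro a ha
        have ha' := hconn a (Finset.mem_sdiff.1 ha).1
        revert ha
        induction ha' using ReflTransGen.head_induction_on with
        | refl => intro _; exact ReflTransGen.refl
        | head hab hbw ih =>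
          rename_i a b
          intro ha
          by_cases hau : a = u
          · subst hau; exact ReflTransGen.refl
          have hb : b ∈ D₁ := by
            refine Finset.mem_sdiff.2 ⟨hab.2.2, fun hb₂ => (Finset.mem_sdiff.1 ha).2 ?_⟩
            have hb' := (Finset.mem_filter.1 hb₂).2
            simp only [hD₂, Finset.mem_filter]
            refine ⟨hab.2.1, hau, ReflTransGen.head ⟨hab.1, ⟨hab.2.1, hau⟩, ⟨hab.2.2, hb'.1⟩⟩ hb'.2⟩
          exact ReflTransGen.head ⟨hab.1, ha, hb⟩ (ih hb)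
      obtain ⟨l₁, hn₁, hm₁, hh₁, hl₁, hch₁⟩ := ih _ hc₁ D₁ u rfl hu₁ hconn₁
      obtain ⟨l₂, hn₂, hm₂, hh₂, hl₂, hch₂⟩ := ih _ hc₂ D₂ w rfl hw₂ hconn₂
      have hne₁ : l₁ ≠ [] := by rintro rfl; simp at hh₁
      have hne₂ : l₂ ≠ [] := by rintro rfl; simp at hh₂
      refine ⟨l₁ ++ l₂.reverse, ?_, ?_, ?_, ?_, ?_⟩
      · rw [List.nodup_append]
        refine ⟨hn₁, List.nodup_reverse.2 hn₂, ?_⟩
        intro x hx y hy hxy
        subst hxy
        rw [List.mem_reverse, hm₂] at hy
        rw [hm₁] at hx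
        exact (Finset.mem_sdiff.1 hx).2 hy
      · intro x
        rw [List.mem_append, List.mem_reverse, hm₁, hm₂, hD₁, Finset.mem_sdiff]
        constructor
        · rintro (h | h)
          · exact h.1
          · exact hsub h
        · intro h
          by_cases h2 : x ∈ D₂
          · exact Or.inr h2
          · exact Or.inl ⟨h, h2⟩
      · rw [List.head?_append, hh₁]; rfl
      · intro z hz
        rw [List.getLast?_append, List.getLast?_reverse, hh₂] at hz
        simp at hz
        subst hz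
        exact hRwu
      · refine hch₁.append ?_ ?_
        · rw [List.isChain_reverse]
          exact hch₂.imp fun a b h => h.symm hs
        · intro x hx y hy
          rw [List.head?_reverse] at hy
          exact ⟨u, w, hl₁ x hx, hs _ _ hRwu, hs _ _ (hl₂ y hy)⟩

/-- concatenation of the first `N` lists -/
def cat (l : ℕ → List V) : ℕ → List V
  | 0 => []
  | N + 1 => cat l N ++ l N

theorem cat_le (l : ℕ → List V) {M N : ℕ} (h : M ≤ N) : cat l M <+: cat l N := by
  induction h with
  | refl => exact List.prefix_rfl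
  | step _ ih => exact ih.trans (List.prefix_append _ _)

theorem le_length_cat (l : ℕ → List V) (hne : ∀ n, l n ≠ []) (N : ℕ) : N ≤ (cat l N).length := by
  induction N with
  | zero => simp
  | succ N ih =>
    have := List.length_pos_iff.2 (hne N)
    simp only [cat, List.length_append]
    omega

theorem mem_cat (l : ℕ → List V) (N : ℕ) (a : V) : a ∈ cat l N ↔ ∃ n < N, a ∈ l n := by
  induction N with
  | zero => simp [cat]
  | succ N ih =>
    simp only [cat, List.mem_append, ih]
    constructor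
    · rintro (⟨n, hn, h⟩ | h)
      · exact ⟨n, by omega, h⟩
      · exact ⟨N, by omega, h⟩
    · rintro ⟨n, hn, h⟩
      rcases Nat.lt_succ_iff_lt_or_eq.1 hn with h' | rfl
      · exact Or.inl ⟨n, h', h⟩
      · exact Or.inr h

/-- Enumeration of a set cut into finite connected shells. -/
theorem exists_enum [DecidableEq V] {R : V → V → Prop} (hr : ∀ a, R a a)
    (hs : ∀ a b, R a b → R b a) (lev : V → ℕ) (D : ℕ → Finset V)
    (hD : ∀ n a, a ∈ D n ↔ lev a = n) (u : ℕ → V) (hu : ∀ n, u n ∈ D n)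
    (huu : ∀ n, R (u n) (u (n + 1)))
    (hconn : ∀ n, ∀ a ∈ D n, ReflTransGen (Res R (D n)) a (u n)) :
    ∃ e : ℕ → V, Function.Bijective e ∧ e 0 = u 0 ∧ (∀ i, Near3 R (e i) (e (i + 1))) ∧
      ∀ i (F : Finset V), (∀ a ∈ F, lev a < lev (e i)) → F.card ≤ i := by
  classical
  choose l hn hm hh hl hch using fun n => cube_list hr hs _ (D n) (u n) rfl (hu n) (hconn n)
  have hne : ∀ n, l n ≠ [] := by
    intro n h
    have := hh n
    rw [h] at this
    simp at this
  have hlen := le_length_cat l hne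
  have hnd : ∀ N, (cat l N).Nodup := by
    intro N
    induction N with
    | zero => simp [cat]
    | succ N ih =>
      simp only [cat]
      rw [List.nodup_append]
      refine ⟨ih, hn N, ?_⟩
      intro x hx y hy hxy
      subst hxy
      obtain ⟨n, hn', hx'⟩ := (mem_cat l N x).1 hx
      rw [hm, hD] at hx' hy
      omega
  have hlast : ∀ N, ∀ z ∈ (cat l (N + 1)).getLast?, R z (u N) := by
    intro N z hz
    simp only [cat] at hz
    rw [List.getLast?_append_of_ne_nil _ (hne N)] at hz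
    exact hl N z hz
  have hchain : ∀ N, (cat l N).IsChain (Near3 R) := by
    intro N
    induction N with
    | zero => simp [cat]
    | succ N ih =>
      simp only [cat]
      refine ih.append (hch N) ?_
      intro x hx y hy
      rw [hh N] at hy
      simp at hy
      subst hy
      cases N with
      | zero => simp [cat] at hx
      | succ N => exact ⟨u N, u (N + 1), hlast N x hx, huu N, hr _⟩
  let e : ℕ → V := fun i => (cat l (i + 1))[i]'(by have := hlen (i + 1); omega)
  have he : ∀ N i (h : i < (cat l N).length), e i = (cat l N)[i] := by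
    intro N i h
    have h1 : e i = (cat l (max N (i + 1)))[i]'(by have := hlen (max N (i + 1)); omega) :=
      (cat_le l (le_max_right N (i + 1))).getElem _
    have h2 : (cat l N)[i] = (cat l (max N (i + 1)))[i]'(by have := hlen (max N (i + 1)); omega) :=
      (cat_le l (le_max_left N (i + 1))).getElem _
    rw [h1, h2]
  refine ⟨e, ⟨?_, ?_⟩, ?_, ?_, ?_⟩
  · intro i j hij
    have hi : i < (cat l (max i j + 1)).length := by have := hlen (max i j + 1); omega
    have hj : j < (cat l (max i j + 1)).length := by have := hlen (max i j + 1); omega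
    rw [he _ i hi, he _ j hj] at hij
    exact (List.Nodup.getElem_inj_iff (hnd _)).1 hij
  · intro a
    have : a ∈ cat l (lev a + 1) :=
      (mem_cat l _ a).2 ⟨lev a, by omega, by rw [hm, hD]⟩
    obtain ⟨i, hi, h⟩ := List.getElem_of_mem this
    exact ⟨i, (he _ i hi).trans h⟩
  · have h0 : 0 < (cat l 1).length := by have := hlen 1; omega
    rw [he 1 0 h0]
    have := hh 0
    simp only [cat, List.nil_append]
    rw [List.head?_eq_getElem?] at this
    simp only [cat, List.nil_append] at h0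
    rw [List.getElem?_eq_getElem h0] at this
    simpa using this
  · intro i
    have h1 : i + 1 < (cat l (i + 2)).length := by have := hlen (i + 2); omega
    rw [he (i + 2) i (by omega), he (i + 2) (i + 1) h1]
    exact List.isChain_iff_getElem.1 (hchain (i + 2)) i h1
  · intro i F hF
    have h1 : (cat l (lev (e i))).length ≤ i := by
      by_contra h
      push Not at h
      have hmem : e i ∈ cat l (lev (e i)) := by
        have h' := List.getElem_mem h
        rwa [← he _ i h] at h'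
      obtain ⟨n, hn', hx'⟩ := (mem_cat l _ _).1 hmem
      rw [hm, hD] at hx'
      omega
    have h2 : F ⊆ (cat l (lev (e i))).toFinset := by
      intro a ha
      rw [List.mem_toFinset, mem_cat]
      exact ⟨lev a, hF a ha, by rw [hm, hD]⟩
    exact (Finset.card_le_card h2).trans ((List.toFinset_card_le _).trans h1)

end Pool.Agent.Lib.MP_df87fb_al
end

-- part Pool.Agent.Lib.MP_df87fb_al.Shell
section

/-!
Connected shells in a stack of planes `ℤ × ℤ²` glued along a bi-Lipschitz bijection `A`.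
-/

namespace Pool.Agent.Lib.MP_df87fb_al

open Relation

/-- points: level and two coordinates -/
abbrev Pt := ℤ × ℤ × ℤ

/-- sup norm on `ℤ²` -/
def nrm (v : ℤ × ℤ) : ℤ := max |v.1| |v.2|

/-- the elementary moves -/
def Mv (A : ℤ × ℤ → ℤ × ℤ) (p q : Pt) : Prop :=
  q = (p.1, p.2.1 + 1, p.2.2) ∨ q = (p.1, p.2.1, p.2.2 + 1) ∨ q = (p.1 + 1, A p.2)

/-- reflexive symmetric closure of the moves -/
def Adj (A : ℤ × ℤ → ℤ × ℤ) (p q : Pt) : Prop := p = q ∨ Mv A p q ∨ Mv A q p

theorem Adj.refl (A : ℤ × ℤ → ℤ × ℤ) (p : Pt) : Adj A p p := Or.inl rfl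

theorem Adj.symm (A : ℤ × ℤ → ℤ × ℤ) (p q : Pt) (h : Adj A p q) : Adj A q p := by
  rcases h with h | h | h
  · exact Or.inl h.symm
  · exact Or.inr (Or.inr h)
  · exact Or.inr (Or.inl h)

/-- radii of the boxes -/
def rad (K : ℕ) : ℕ → ℕ
  | 0 => 0
  | n + 1 => K ^ 2 * (rad K n + 1)

theorem rad_lt_succ {K : ℕ} (hK : 1 ≤ K) (n : ℕ) : rad K n + 1 ≤ rad K (n + 1) := by
  simp only [rad]
  have : 1 ≤ K ^ 2 := Nat.one_le_pow _ _ hK
  nlinarith

theorem le_rad {K : ℕ} (hK : 1 ≤ K) (n : ℕ) : n ≤ rad K n := by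
  induction n with
  | zero => simp
  | succ n ih => have := rad_lt_succ hK n; omega

theorem rad_mono {K : ℕ} (hK : 1 ≤ K) : Monotone (rad K) :=
  monotone_nat_of_le_succ fun n => by have := rad_lt_succ hK n; omega

/-- membership in the `n`-th box -/
def InBox (K n : ℕ) (p : Pt) : Prop := |p.1| ≤ n ∧ |p.2.1| ≤ rad K n ∧ |p.2.2| ≤ rad K n

theorem InBox.mono {K : ℕ} (hK : 1 ≤ K) {n n' : ℕ} (h : n ≤ n') {p : Pt} (hp : InBox K n p) :
    InBox K n' p := by
  have h1 : (rad K n : ℤ) ≤ rad K n' := by exact_mod_cast rad_mono hK h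
  have h2 : (n : ℤ) ≤ n' := by exact_mod_cast h
  exact ⟨hp.1.trans h2, hp.2.1.trans h1, hp.2.2.trans h1⟩

theorem exists_inBox {K : ℕ} (hK : 1 ≤ K) (p : Pt) : ∃ n, InBox K n p := by
  refine ⟨p.1.natAbs + p.2.1.natAbs + p.2.2.natAbs, ?_⟩
  have h := le_rad hK (p.1.natAbs + p.2.1.natAbs + p.2.2.natAbs)
  have h' : ((p.1.natAbs + p.2.1.natAbs + p.2.2.natAbs : ℕ) : ℤ) ≤
    rad K (p.1.natAbs + p.2.1.natAbs + p.2.2.natAbs) := by exact_mod_cast h
  refine ⟨?_, ?_, ?_⟩ <;> rw [Int.abs_eq_natAbs] <;> omega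

open Classical in
/-- the level of a point: the first box containing it -/
noncomputable def lev {K : ℕ} (hK : 1 ≤ K) (p : Pt) : ℕ := Nat.find (exists_inBox hK p)

theorem lev_le_iff {K : ℕ} (hK : 1 ≤ K) (p : Pt) (n : ℕ) : lev hK p ≤ n ↔ InBox K n p := by
  classical
  unfold lev
  rw [Nat.find_le_iff]
  exact ⟨fun ⟨m, hm, h⟩ => h.mono hK hm, fun h => ⟨n, le_rfl, h⟩⟩

theorem lev_eq_succ_iff {K : ℕ} (hK : 1 ≤ K) (p : Pt) (n : ℕ) :
    lev hK p = n + 1 ↔ InBox K (n + 1) p ∧ ¬ InBox K n p := by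
  rw [← lev_le_iff hK, ← lev_le_iff hK]
  omega

/-- the box as a finite set -/
noncomputable def box (K n : ℕ) : Finset Pt :=
  Finset.Icc (-(n : ℤ)) n ×ˢ Finset.Icc (-(rad K n : ℤ)) (rad K n) ×ˢ
    Finset.Icc (-(rad K n : ℤ)) (rad K n)

theorem mem_box (K n : ℕ) (p : Pt) : p ∈ box K n ↔ InBox K n p := by
  simp only [box, Finset.mem_product, Finset.mem_Icc, InBox, abs_le]

theorem card_box (K n : ℕ) : (rad K n + 1) ^ 2 ≤ (box K n).card := by
  simp only [box, Finset.card_product, Int.card_Icc]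
  have h1 : ((n : ℤ) + 1 - -(n : ℤ)).toNat = 2 * n + 1 := by omega
  have h2 : ((rad K n : ℤ) + 1 - -(rad K n : ℤ)).toNat = 2 * rad K n + 1 := by omega
  rw [h1, h2]
  nlinarith [Nat.zero_le (n * (2 * rad K n + 1) * (2 * rad K n + 1)), Nat.zero_le (rad K n),
    Nat.zero_le (rad K n * rad K n)]

/-- the shell -/
noncomputable def shell {K : ℕ} (hK : 1 ≤ K) (n : ℕ) : Finset Pt :=
  (box K n).filter fun p => lev hK p = n

theorem mem_shell {K : ℕ} (hK : 1 ≤ K) (n : ℕ) (p : Pt) : p ∈ shell hK n ↔ lev hK p = n := by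
  simp only [shell, Finset.mem_filter, mem_box, ← lev_le_iff hK]
  omega

theorem res_symm {A : ℤ × ℤ → ℤ × ℤ} {D : Set Pt} {p q : Pt}
    (h : ReflTransGen (Res (Adj A) D) p q) : ReflTransGen (Res (Adj A) D) q p := by
  induction h with
  | refl => exact ReflTransGen.refl
  | tail _ hbc ih => exact ReflTransGen.head ⟨Adj.symm A _ _ hbc.1, hbc.2.2, hbc.2.1⟩ ih

theorem move_x {A : ℤ × ℤ → ℤ × ℤ} {D : Set Pt} (k y x R : ℤ) (hx : x ≤ R)
    (h : ∀ z, x ≤ z → z ≤ R → ((k, z, y) : Pt) ∈ D) :
    ReflTransGen (Res (Adj A) D) (k, x, y) (k, R, y) := by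
  obtain ⟨j, rfl⟩ := Int.le.dest hx
  induction j with
  | zero => simpa using ReflTransGen.refl
  | succ j ih =>
    have h1 := ih (by omega) (fun z h1 h2 => h z h1 (by push_cast; omega))
    refine h1.tail ⟨Or.inr (Or.inl (Or.inl ?_)), h _ (by omega) (by push_cast; omega),
      h _ (by push_cast; omega) le_rfl⟩
    simp [add_assoc]

theorem move_y {A : ℤ × ℤ → ℤ × ℤ} {D : Set Pt} (k x y R : ℤ) (hy : y ≤ R)
    (h : ∀ z, y ≤ z → z ≤ R → ((k, x, z) : Pt) ∈ D) :
    ReflTransGen (Res (Adj A) D) (k, x, y) (k, x, R) := by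
  obtain ⟨j, rfl⟩ := Int.le.dest hy
  induction j with
  | zero => simpa using ReflTransGen.refl
  | succ j ih =>
    have h1 := ih (by omega) (fun z h1 h2 => h z h1 (by push_cast; omega))
    refine h1.tail ⟨Or.inr (Or.inl (Or.inr (Or.inl ?_))), h _ (by omega) (by push_cast; omega),
      h _ (by push_cast; omega) le_rfl⟩
    simp [add_assoc]

theorem mem_shell_succ {K : ℕ} (hK : 1 ≤ K) (n : ℕ) (k x y : ℤ) :
    ((k, x, y) : Pt) ∈ (shell hK (n + 1) : Set Pt) ↔
      (|k| ≤ n + 1 ∧ |x| ≤ rad K (n + 1) ∧ |y| ≤ rad K (n + 1)) ∧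
        ((n : ℤ) < |k| ∨ (rad K n : ℤ) < |x| ∨ (rad K n : ℤ) < |y|) := by
  rw [Finset.mem_coe, mem_shell, lev_eq_succ_iff]
  simp only [InBox, not_and_or, not_le]
  push_cast
  rfl

theorem to_corner {A : ℤ × ℤ → ℤ × ℤ} {K : ℕ} (hK : 1 ≤ K) (n : ℕ) (k x y : ℤ)
    (h : ((k, x, y) : Pt) ∈ (shell hK (n + 1) : Set Pt)) :
    ReflTransGen (Res (Adj A) (shell hK (n + 1))) (k, x, y)
      (k, (rad K (n + 1) : ℤ), (rad K (n + 1) : ℤ)) := by
  rw [mem_shell_succ] at h
  obtain ⟨⟨hk, hx, hy⟩, h⟩ := h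
  have hr : (rad K n : ℤ) + 1 ≤ rad K (n + 1) := by exact_mod_cast rad_lt_succ hK n
  have hr0 : (0 : ℤ) ≤ rad K n := by positivity
  have hx' := abs_le.1 hx
  have hy' := abs_le.1 hy
  have habs : |(rad K (n + 1) : ℤ)| = rad K (n + 1) := abs_of_nonneg (by positivity)
  by_cases hc : (rad K n : ℤ) < |y|
  · refine (move_x k y x (rad K (n + 1)) hx'.2 ?_).trans (move_y k _ y _ hy'.2 ?_)
    · intro z h1 h2
      rw [mem_shell_succ]
      exact ⟨⟨hk, abs_le.2 ⟨by omega, h2⟩, hy⟩, Or.inr (Or.inr hc)⟩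
    · intro z h1 h2
      rw [mem_shell_succ]
      exact ⟨⟨hk, habs.le, abs_le.2 ⟨by omega, h2⟩⟩, Or.inr (Or.inl (by omega))⟩
  · refine (move_y k x y (rad K (n + 1)) hy'.2 ?_).trans (move_x k _ x _ hx'.2 ?_)
    · intro z h1 h2
      rw [mem_shell_succ]
      refine ⟨⟨hk, hx, abs_le.2 ⟨by omega, h2⟩⟩, ?_⟩
      rcases h with h | h | h
      · exact Or.inl h
      · exact Or.inr (Or.inl h)
      · exact absurd h hc
    · intro z h1 h2
      rw [mem_shell_succ]
      exact ⟨⟨hk, abs_le.2 ⟨by omega, h2⟩, habs.le⟩, Or.inr (Or.inr (by omega))⟩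

theorem corner_up {A : ℤ × ℤ → ℤ × ℤ} {K : ℕ} (hK : 1 ≤ K)
    (hA : ∀ v, nrm (A v) ≤ K * nrm v) (hB : ∀ v, nrm v ≤ K * nrm (A v)) (n : ℕ) (k : ℤ)
    (hk1 : -((n : ℤ) + 1) ≤ k) (hk2 : k ≤ n) :
    ReflTransGen (Res (Adj A) (shell hK (n + 1))) (k, (rad K (n + 1) : ℤ), (rad K (n + 1) : ℤ))
      (k + 1, (rad K (n + 1) : ℤ), (rad K (n + 1) : ℤ)) := by
  have hK' : (1 : ℤ) ≤ K := by exact_mod_cast hK
  have hr0 : (0 : ℤ) ≤ rad K n := by positivity
  set c : ℤ := K * (rad K n + 1) with hc
  have hc1 : (rad K n : ℤ) + 1 ≤ c := by nlinarith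
  have hR : (rad K (n + 1) : ℤ) = K * c := by
    simp only [rad, hc]; push_cast; ring
  have hc2 : c ≤ rad K (n + 1) := by rw [hR]; nlinarith
  have hn : nrm (c, 0) = c := by
    simp only [nrm, abs_zero]
    rw [abs_of_nonneg (by omega)]
    exact max_eq_left (by omega)
  have h1 : ((k, c, 0) : Pt) ∈ (shell hK (n + 1) : Set Pt) := by
    rw [mem_shell_succ]
    refine ⟨⟨abs_le.2 ⟨by omega, by omega⟩, abs_le.2 ⟨by omega, hc2⟩, by simp⟩,
      Or.inr (Or.inl ?_)⟩
    rw [abs_of_nonneg (by omega)]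
    omega
  have h2 : ((k + 1, (A (c, 0)).1, (A (c, 0)).2) : Pt) ∈ (shell hK (n + 1) : Set Pt) := by
    rw [mem_shell_succ]
    have ha := hA (c, 0)
    have hb := hB (c, 0)
    rw [hn] at ha hb
    rw [← hR] at ha
    have hb' : (rad K n : ℤ) + 1 ≤ nrm (A (c, 0)) := by
      rw [hc] at hb ⊢
      exact le_of_mul_le_mul_left hb (by omega)
    simp only [nrm] at ha hb'
    refine ⟨⟨abs_le.2 ⟨by omega, by omega⟩, (le_max_left _ _).trans ha,
      (le_max_right _ _).trans ha⟩, Or.inr ?_⟩
    rcases le_max_iff.1 hb' with h | h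
    · exact Or.inl (by omega)
    · exact Or.inr (by omega)
  refine (res_symm (to_corner hK n k c 0 h1)).trans ?_
  refine ReflTransGen.head ⟨?_, h1, h2⟩ (to_corner hK n _ _ _ h2)
  exact Or.inr (Or.inl (Or.inr (Or.inr rfl)))

theorem shell_conn {A : ℤ × ℤ → ℤ × ℤ} {K : ℕ} (hK : 1 ≤ K)
    (hA : ∀ v, nrm (A v) ≤ K * nrm v) (hB : ∀ v, nrm v ≤ K * nrm (A v)) (n : ℕ) (p : Pt)
    (hp : p ∈ shell hK n) :
    ReflTransGen (Res (Adj A) (shell hK n)) p ((n : ℤ), 0, 0) := by
  cases n with
  | zero =>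
    rw [mem_shell] at hp
    have := (lev_le_iff hK p 0).1 hp.le
    obtain ⟨k, x, y⟩ := p
    simp only [InBox, rad, Nat.cast_zero, abs_nonpos_iff] at this
    obtain ⟨rfl, rfl, rfl⟩ := this
    exact ReflTransGen.refl
  | succ n =>
    obtain ⟨k, x, y⟩ := p
    have hp' : ((k, x, y) : Pt) ∈ (shell hK (n + 1) : Set Pt) := hp
    have h0 : ((((n + 1 : ℕ) : ℤ), 0, 0) : Pt) ∈ (shell hK (n + 1) : Set Pt) := by
      rw [mem_shell_succ]
      push_cast
      rw [abs_of_nonneg (by positivity)]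
      simp
    refine (to_corner hK n k x y hp').trans (ReflTransGen.trans ?_
      (res_symm (to_corner hK n _ 0 0 h0)))
    have hk := abs_le.1 ((mem_shell_succ hK n k x y).1 hp').1.1
    have key : ∀ j : ℕ, k + j ≤ n + 1 →
        ReflTransGen (Res (Adj A) (shell hK (n + 1)))
          (k, (rad K (n + 1) : ℤ), (rad K (n + 1) : ℤ))
          (k + j, (rad K (n + 1) : ℤ), (rad K (n + 1) : ℤ)) := by
      intro j
      induction j with
      | zero => intro _; simpa using ReflTransGen.refl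
      | succ j ih =>
        intro hj
        push_cast at hj ⊢
        rw [← add_assoc]
        exact (ih (by omega)).trans (corner_up hK hA hB n _ (by omega) (by omega))
    obtain ⟨j, hj⟩ := Int.le.dest hk.2
    have := key j hj.le
    rw [hj] at this
    exact_mod_cast this

/-- A slow enumeration of the stack of planes with bounded jumps. -/
theorem exists_slow_enum {A : ℤ × ℤ → ℤ × ℤ} {K : ℕ} (hK : 1 ≤ K)
    (hA : ∀ v, nrm (A v) ≤ K * nrm v) (hB : ∀ v, nrm v ≤ K * nrm (A v)) :
    ∃ e : ℕ → Pt, Function.Bijective e ∧ e 0 = (0, 0, 0) ∧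
      (∀ i, Near3 (Adj A) (e i) (e (i + 1))) ∧
      ∀ i, ((e i).1.natAbs + (e i).2.1.natAbs + (e i).2.2.natAbs) ^ 2 ≤ 9 * K ^ 4 * i := by
  have hA0 : A (0, 0) = (0, 0) := by
    have := hA (0, 0)
    simp only [nrm, abs_zero, max_self, mul_zero, max_le_iff, abs_nonpos_iff] at this
    exact Prod.ext this.1 this.2
  obtain ⟨e, he, h0, hnear, hcard⟩ := exists_enum (Adj.refl A) (Adj.symm A) (lev hK) (shell hK)
    (mem_shell hK) (fun n => ((n : ℤ), 0, 0)) (by
      intro n
      rw [mem_shell]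
      apply le_antisymm
      · rw [lev_le_iff]; simp [InBox]
      · cases n with
        | zero => simp
        | succ n =>
          by_contra h
          have : lev hK (((n + 1 : ℕ) : ℤ), 0, 0) ≤ n := by omega
          rw [lev_le_iff] at this
          have := this.1
          push_cast at this
          rw [abs_of_nonneg (by positivity)] at this
          omega)
    (by
      intro n
      refine Or.inr (Or.inl (Or.inr (Or.inr ?_)))
      simp [hA0])
    (shell_conn hK hA hB)
  refine ⟨e, he, by simpa using h0, hnear, fun i => ?_⟩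
  have hb := (lev_le_iff hK (e i) (lev hK (e i))).1 le_rfl
  rcases hl : lev hK (e i) with _ | n
  · rw [hl] at hb
    simp only [InBox, rad, Nat.cast_zero, abs_nonpos_iff] at hb
    simp [hb.1, hb.2.1, hb.2.2]
  · rw [hl] at hb
    have h1 := hcard i (box K n) (by
      intro a ha
      rw [mem_box, ← lev_le_iff hK] at ha
      omega)
    have h2 := (card_box K n).trans h1
    have h3 := le_rad hK (n + 1)
    obtain ⟨hb1, hb2, hb3⟩ := hb
    rw [Int.abs_eq_natAbs] at hb1 hb2 hb3
    have h4 : (e i).1.natAbs + (e i).2.1.natAbs + (e i).2.2.natAbs ≤ 3 * rad K (n + 1) := by omega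
    calc _ ≤ (3 * rad K (n + 1)) ^ 2 := Nat.pow_le_pow_left h4 2
      _ = 9 * K ^ 4 * (rad K n + 1) ^ 2 := by simp only [rad]; ring
      _ ≤ _ := Nat.mul_le_mul_left _ h2

end Pool.Agent.Lib.MP_df87fb_al
end

-- part Pool.Agent.Lib.MP_df87fb_al.Ray
section

/-!
From a slow Hamiltonian ray to a normal form.
-/

namespace Pool.Agent.Lib.MP_df87fb_al

open Filter

variable {G : Type} [Group G] {m : ℕ}

theorem evalWord_nil (x : Fin m → G) : evalWord x [] = 1 := rfl

theorem evalWord_append (x : Fin m → G) (v w : List (Fin m × Bool)) :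
    evalWord x (v ++ w) = evalWord x v * evalWord x w := by
  simp [evalWord]

theorem evalWord_true (x : Fin m → G) (i : Fin m) : evalWord x [(i, true)] = x i := by
  simp [evalWord]

theorem evalWord_false (x : Fin m → G) (i : Fin m) : evalWord x [(i, false)] = (x i)⁻¹ := by
  simp [evalWord]

/-- `g` has word length at most `n` -/
def HasLen (x : Fin m → G) (g : G) (n : ℕ) : Prop :=
  ∃ w : List (Fin m × Bool), w.length ≤ n ∧ evalWord x w = g

theorem HasLen.mono {x : Fin m → G} {g : G} {n n' : ℕ} (h : HasLen x g n) (hn : n ≤ n') :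
    HasLen x g n' := by
  obtain ⟨w, hw, rfl⟩ := h
  exact ⟨w, hw.trans hn, rfl⟩

theorem HasLen.mul {x : Fin m → G} {g h : G} {n n' : ℕ} (hg : HasLen x g n) (hh : HasLen x h n') :
    HasLen x (g * h) (n + n') := by
  obtain ⟨w, hw, rfl⟩ := hg
  obtain ⟨w', hw', rfl⟩ := hh
  exact ⟨w ++ w', by simp; omega, evalWord_append x w w'⟩

theorem HasLen.one (x : Fin m → G) : HasLen x 1 0 := ⟨[], le_rfl, rfl⟩

theorem HasLen.gen (x : Fin m → G) (i : Fin m) : HasLen x (x i) 1 :=
  ⟨[(i, true)], le_rfl, evalWord_true x i⟩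

theorem HasLen.inv {x : Fin m → G} {g : G} {n : ℕ} (hg : HasLen x g n) : HasLen x g⁻¹ n := by
  obtain ⟨w, hw, rfl⟩ := hg
  refine HasLen.mono ?_ hw
  clear hw
  induction w with
  | nil => simpa [evalWord_nil] using HasLen.one x
  | cons s w ih =>
    have : s :: w = [s] ++ w := rfl
    rw [this, evalWord_append, mul_inv_rev]
    have h1 : HasLen x (evalWord x [s])⁻¹ 1 := by
      obtain ⟨i, b⟩ := s
      cases b
      · rw [evalWord_false, inv_inv]; exact HasLen.gen x i
      · rw [evalWord_true]; exact ⟨[(i, false)], le_rfl, evalWord_false x i⟩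
    simpa using ih.mul h1

theorem HasLen.pow {x : Fin m → G} {g : G} (hg : HasLen x g 1) (k : ℕ) : HasLen x (g ^ k) k := by
  induction k with
  | zero => simpa using HasLen.one x
  | succ k ih => rw [pow_succ]; exact ih.mul hg

theorem HasLen.zpow {x : Fin m → G} {g : G} (hg : HasLen x g 1) (k : ℤ) :
    HasLen x (g ^ k) k.natAbs := by
  obtain ⟨n, rfl | rfl⟩ := Int.eq_nat_or_neg k
  · simpa using hg.pow n
  · simpa using (hg.pow n).inv

theorem HasLen.wordDist_le {x : Fin m → G} {g h : G} {n : ℕ} (hl : HasLen x (g⁻¹ * h) n) :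
    wordDist x g h ≤ n := by
  obtain ⟨w, hw, he⟩ := hl
  refine le_trans (Nat.sInf_le ⟨w, rfl, ?_⟩) hw
  rw [he]; group

theorem HasLen.mem_closure {x : Fin m → G} {g : G} {n : ℕ} (hl : HasLen x g n) :
    g ∈ Subgroup.closure (Set.range x) := by
  obtain ⟨w, -, rfl⟩ := hl
  unfold evalWord
  refine Subgroup.list_prod_mem _ ?_
  intro y hy
  obtain ⟨s, -, rfl⟩ := List.mem_map.1 hy
  have : x s.1 ∈ Subgroup.closure (Set.range x) := Subgroup.subset_closure ⟨_, rfl⟩
  split_ifs
  · exact this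
  · exact Subgroup.inv_mem _ this

theorem sqrt_muchLess : MuchLess (fun n => √(n : ℝ)) (fun n => (n : ℝ)) := by
  refine ⟨fun n => √(n : ℝ), fun a b h => Real.sqrt_le_sqrt (by exact_mod_cast h),
    fun n => Real.sqrt_nonneg _, ?_, 1, 1, one_pos, one_pos, Eventually.of_forall fun n => ?_⟩
  · rintro ⟨B, hB⟩
    obtain ⟨k, hk⟩ := exists_nat_gt B
    have := hB ⟨k ^ 2, rfl⟩
    simp only [Nat.cast_pow] at this
    rw [Real.sqrt_sq (by positivity)] at this
    linarith
  · simp

/-- A ray through all group elements, with steps among the generators and square-root growth,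
gives a normal form. -/
theorem normalForm_of_ray (x : Fin m → G) (e : ℕ → G) (he : Function.Bijective e) (h0 : e 0 = 1)
    (hstep : ∀ i, ∃ j, e i * x j = e (i + 1)) (C : ℕ)
    (hlen : ∀ i, ∃ n, HasLen x (e i) n ∧ n ^ 2 ≤ C ^ 2 * i) :
    Subgroup.closure (Set.range x) = ⊤ ∧ ∃ L : Set (List (Fin m × Bool)), IsNormalForm x L ∧
      PrefixClosed L ∧ Quasiregular L ∧ FellowTraveler x L (fun n => √(n : ℝ)) := by
  choose j hj using hstep
  choose len hl hC using hlen
  let w : ℕ → List (Fin m × Bool) := fun i => (List.range i).map fun k => (j k, true)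
  have hw : ∀ i, evalWord x (w i) = e i := by
    intro i
    induction i with
    | zero => simp [w, evalWord_nil, h0]
    | succ i ih =>
      have : w (i + 1) = w i ++ [(j i, true)] := by simp [w, List.range_succ]
      rw [this, evalWord_append, ih, evalWord_true, hj]
  have htake : ∀ i t, (w i).take t = w (min t i) := by
    intro i t
    simp only [w, ← List.map_take, List.take_range]
  have hpc : PrefixClosed (Set.range w) := by
    rintro _ ⟨i, rfl⟩ u hu
    exact ⟨min u.length i, by rw [← htake]; exact (List.prefix_iff_eq_take.1 hu).symm⟩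
  refine ⟨?_, Set.range w, ⟨fun _ _ => trivial, ?_, ?_⟩, hpc, ⟨0, ?_⟩, ?_, fun n => Real.sqrt_nonneg _,
    sqrt_muchLess, 2 * C + 1, 1, by omega, one_pos, Eventually.of_forall fun n => ?_⟩
  · rw [eq_top_iff]
    intro g _
    obtain ⟨i, rfl⟩ := he.2 g
    exact (hl i).mem_closure
  · rintro _ ⟨i, rfl⟩ _ ⟨i', rfl⟩ h
    rw [hw, hw] at h
    rw [he.1 h]
  · intro g _
    obtain ⟨i, rfl⟩ := he.2 g
    exact ⟨w i, ⟨i, rfl⟩, hw i⟩
  · intro v hv u hu
    exact ⟨[], le_rfl, by simpa using hpc v hv u hu⟩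
  · exact fun a b h => Real.sqrt_le_sqrt (by exact_mod_cast h)
  · have hb : ∀ i ≤ n, (len i : ℝ) ≤ C * √(n : ℝ) := by
      intro i hi
      have h1 : ((len i : ℝ)) ^ 2 ≤ (C * √(n : ℝ)) ^ 2 := by
        rw [mul_pow, Real.sq_sqrt (by positivity)]
        have : len i ^ 2 ≤ C ^ 2 * n := (hC i).trans (Nat.mul_le_mul_left _ hi)
        exact_mod_cast this
      exact (pow_le_pow_iff_left₀ (by positivity) (by positivity) two_ne_zero).1 h1
    have hfl : fellowFun x (Set.range w) n ≤ ⌊2 * C * √(n : ℝ)⌋₊ := by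
      unfold fellowFun
      refine csSup_le' ?_
      rintro _ ⟨t, ht, _, ⟨a, rfl⟩, _, ⟨b, rfl⟩, i, -, rfl⟩
      rw [htake, htake, hw, hw]
      refine ((hl _).inv.mul (hl _)).wordDist_le.trans (Nat.le_floor ?_)
      have h1 := hb (min t a) (by omega)
      have h2 := hb (min t b) (by omega)
      push_cast
      linarith
    have h2 : (fellowFun x (Set.range w) n : ℝ) ≤ 2 * C * √(n : ℝ) :=
      (Nat.cast_le.2 hfl).trans (Nat.floor_le (by positivity))
    simp only [one_mul]
    push_cast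
    nlinarith [Real.sqrt_nonneg (n : ℝ)]

end Pool.Agent.Lib.MP_df87fb_al
end
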